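import Pool.Agent.H32.N6H.Targets
import Pool.Agent.H18.N6F.Targets
import Pool.Agent.H55.QCL.APR

set_option autoImplicit false

open Polynomial Matrix NumberField IsDedekindDomain Pool.Agent.H32.QC Pool.Agent.H34.N6 Pool.Agent.H32.N6H
open IsDedekindDomain.HeightOneSpectrum NumberField.HeightOneSpectrum

namespace Pool.Agent.H98.N6H

lemma exMin {ι : Type*} (S : Finset ι) (f : ι → ℝ) (h : ∀ i, 0 < f i) :
    ∃ e : ℝ, 0 < e ∧ ∀ i ∈ S, e ≤ f i := by
  classical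
  induction S using Finset.induction_on with
  | empty => exact ⟨1, one_pos, by simp⟩
  | insert a s _ ih =>
    obtain ⟨e, he, h1⟩ := ih
    refine ⟨min e (f a), lt_min he (h a), fun i hi => ?_⟩
    rcases Finset.mem_insert.1 hi with rfl | hi
    · exact min_le_right _ _
    · exact (min_le_left _ _).trans (h1 i hi)

lemma exPow {ι : Type*} (S : Finset ι) (f : ι → ℝ) (δ : ℝ) (hδ : 0 < δ)
    (h0 : ∀ i ∈ S, 0 ≤ f i) (h : ∀ i ∈ S, f i < 1) : ∃ k : ℕ, ∀ i ∈ S, f i ^ (k + 1) < δ := by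
  classical
  induction S using Finset.induction_on with
  | empty => exact ⟨1, by simp⟩
  | insert a s _ ih =>
    obtain ⟨k, hk⟩ := ih (fun i hi => h0 i (Finset.mem_insert_of_mem hi))
      (fun i hi => h i (Finset.mem_insert_of_mem hi))
    have ha := h a (Finset.mem_insert_self a s)
    have ha0 := h0 a (Finset.mem_insert_self a s)
    obtain ⟨l, hl⟩ := exists_pow_lt_of_lt_one hδ ha
    refine ⟨k + l, fun i hi => ?_⟩
    have hi0 := h0 i hi
    have hi1 := (h i hi).le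
    rcases Finset.mem_insert.1 hi with rfl | hi
    · exact (pow_le_pow_of_le_one hi0 hi1 (by omega)).trans_lt hl
    · exact (pow_le_pow_of_le_one hi0 hi1 (by omega)).trans_lt (hk i hi)

lemma est {K E : Type*} [Field K] [NormedField E] (ψ : K →+* E) (s m0 m1 c : K) (C δ e : ℝ)
    (hC : 0 ≤ C) (h0 : ‖ψ m0‖ ≤ C) (h1 : ‖ψ (m1 + m0 * c)‖ ≤ C) (hs : ‖ψ s‖ < δ)
    (hδ : δ * (C + 1) ≤ 1 / 2) (he : 4 * (δ * (C + 1)) ≤ e) :
    ‖ψ ((c + s * m1) / (1 - s * m0)) - ψ c‖ < e / 2 := by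
  have hs0 := norm_nonneg (ψ s)
  have hsm : ‖ψ (s * m0)‖ ≤ 1 / 2 := by
    rw [map_mul, norm_mul]
    calc ‖ψ s‖ * ‖ψ m0‖ ≤ δ * (C + 1) :=
          mul_le_mul hs.le (h0.trans (by linarith)) (norm_nonneg _) (hs0.trans hs.le)
      _ ≤ 1 / 2 := hδ
  have hμ : 1 / 2 ≤ ‖ψ (1 - s * m0)‖ := by
    rw [map_sub, map_one]
    have := norm_sub_norm_le (1 : E) (ψ (s * m0))
    rw [norm_one] at this
    linarith
  have hμ0 : (1 - s * m0) ≠ 0 := by
    intro h
    rw [h, map_zero, norm_zero] at hμ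
    norm_num at hμ
  have h2 : (c + s * m1) / (1 - s * m0) - c = s * (m1 + m0 * c) / (1 - s * m0) := by
    field_simp
    ring
  rw [← map_sub, h2, map_div₀, norm_div, map_mul, norm_mul,
    div_lt_iff₀ (lt_of_lt_of_le (by norm_num) hμ)]
  have hC1 : 0 < C + 1 := by linarith
  have h3 : ‖ψ s‖ * ‖ψ (m1 + m0 * c)‖ < e / 4 := by
    calc ‖ψ s‖ * ‖ψ (m1 + m0 * c)‖ ≤ ‖ψ s‖ * (C + 1) :=
          mul_le_mul_of_nonneg_left (h1.trans (by linarith)) hs0
      _ < δ * (C + 1) := mul_lt_mul_of_pos_right hs hC1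
      _ ≤ e / 4 := by linarith
  have he0 : 0 < e := by
    have : 0 < δ := hs0.trans_lt hs
    have := mul_pos this hC1
    linarith
  nlinarith

variable {K : Type} [Field K] [NumberField K]

lemma norm_nat_le (v : FPl K) (a : ℕ) : ‖ic v (a : K)‖ ≤ 1 := by
  have := FinitePlace.norm_le_one (K := K) (v := v) ((a : ℕ) : 𝓞 K)
  simpa using this

lemma finite_real : Finite (K →+* ℝ) := by
  refine Finite.of_injective (fun φ : K →+* ℝ => (Complex.ofRealHom.comp φ : K →+* ℂ)) ?_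
  intro φ ψ h
  ext x
  have := congrArg (fun f : K →+* ℂ => f x) h
  simpa using this

/-- infinitely many elements which are small at given places -/
lemma small (S : Finset (FPl K)) (δ : ℝ) (hδ : 0 < δ) (T : Set K) (hT : T.Finite) :
    ∃ s : K, s ∉ T ∧ (∀ v ∈ S, ‖ic v s‖ < δ) ∧ ∀ φ : K →+* ℝ, |φ s| < δ := by
  classical
  set P : ℕ := ∏ v ∈ S, Ideal.absNorm v.asIdeal with hP
  have hP1 : 1 ≤ P := by
    refine Nat.one_le_iff_ne_zero.2 (Finset.prod_ne_zero_iff.2 fun v _ => ?_)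
    have := one_lt_absNorm v
    omega
  have hPv : ∀ v ∈ S, ‖ic v (P : K)‖ < 1 := by
    intro v hv
    have h1 : ((P : ℕ) : 𝓞 K) ∈ v.asIdeal := by
      rw [hP, ← Finset.mul_prod_erase S _ hv, Nat.cast_mul]
      exact Ideal.mul_mem_right _ _ (Ideal.absNorm_mem _)
    have := (FinitePlace.norm_lt_one_iff_mem (K := K) (v := v) ((P : ℕ) : 𝓞 K)).2 h1
    simpa using this
  obtain ⟨k, hk⟩ := exPow S (fun v => ‖ic v (P : K)‖) (min δ 1) (lt_min hδ one_pos)
    (fun v _ => norm_nonneg _) hPv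
  set a : ℕ := P ^ (k + 1) with ha
  have ha1 : 1 ≤ a := Nat.one_le_pow _ _ hP1
  have hav : ∀ v ∈ S, ‖ic v (a : K)‖ < min δ 1 := by
    intro v hv
    have := hk v hv
    rw [ha, Nat.cast_pow, map_pow, norm_pow]
    exact this
  obtain ⟨j0, hj0⟩ := exists_nat_gt (1 / δ)
  -- the sequence
  let f : ℕ → K := fun j => (a : K) / (1 + (j0 + j + 1 : ℕ) * a : ℕ)
  have hf : Function.Injective f := by
    intro i j hij
    simp only [f] at hij
    have ha0 : (a : K) ≠ 0 := by exact_mod_cast (by omega : a ≠ 0)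
    have h1 : ((1 + (j0 + i + 1 : ℕ) * a : ℕ) : K) ≠ 0 := by
      exact_mod_cast (by omega : (1 + (j0 + i + 1) * a : ℕ) ≠ 0)
    have h2 : ((1 + (j0 + j + 1 : ℕ) * a : ℕ) : K) ≠ 0 := by
      exact_mod_cast (by omega : (1 + (j0 + j + 1) * a : ℕ) ≠ 0)
    rw [div_eq_div_iff h1 h2] at hij
    have h3 := mul_left_cancel₀ ha0 hij
    have h4 : 1 + (j0 + j + 1) * a = 1 + (j0 + i + 1) * a := by exact_mod_cast h3
    have h5 : (j0 + j + 1) * a = (j0 + i + 1) * a := by omega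
    have h6 := Nat.eq_of_mul_eq_mul_right (by omega : 0 < a) h5
    omega
  have hex : ∃ j, f j ∉ T := by
    by_contra hcon
    push Not at hcon
    exact Set.infinite_of_injective_forall_mem hf hcon hT
  obtain ⟨j, hj⟩ := hex
  refine ⟨f j, hj, fun v hv => ?_, fun φ => ?_⟩
  · simp only [f]
    rw [map_div₀, norm_div]
    have h1 : ‖ic v ((1 + (j0 + j + 1 : ℕ) * a : ℕ) : K)‖ = 1 := by
      rw [map_natCast, Nat.cast_add, Nat.cast_one, Nat.cast_mul]
      have h2 : ‖(((j0 + j + 1 : ℕ) : v.adicCompletion K)) * (a : v.adicCompletion K)‖ <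
          ‖(1 : v.adicCompletion K)‖ := by
        rw [norm_mul, norm_one]
        have h3 := norm_nat_le v (j0 + j + 1)
        rw [map_natCast] at h3
        have h4 := hav v hv
        rw [map_natCast] at h4
        calc _ ≤ 1 * ‖(a : v.adicCompletion K)‖ := mul_le_mul_of_nonneg_right h3 (norm_nonneg _)
          _ = ‖(a : v.adicCompletion K)‖ := one_mul _
          _ < 1 := h4.trans_le (min_le_right _ _)
      rw [IsUltrametricDist.norm_add_eq_max_of_norm_ne_norm h2.ne', max_eq_left h2.le, norm_one]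
    rw [h1, div_one]
    exact (hav v hv).trans_le (min_le_left _ _)
  · simp only [f]
    rw [map_div₀, map_natCast, map_natCast]
    have ha0 : (0 : ℝ) < a := by exact_mod_cast ha1
    have h1 : (0 : ℝ) < ((1 + (j0 + j + 1 : ℕ) * a : ℕ) : ℝ) := by positivity
    rw [abs_of_nonneg (by positivity), div_lt_iff₀ h1]
    push_cast
    have h2 : 1 < δ * j0 := by
      rw [div_lt_iff₀ hδ] at hj0
      linarith
    have h3 : (0 : ℝ) ≤ j := Nat.cast_nonneg j
    nlinarith [mul_nonneg hδ.le h3, mul_pos hδ ha0, mul_nonneg (mul_nonneg hδ.le h3) ha0.le]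

theorem pf_APC (hWAP : Pool.Agent.H18.N6F.T_WAP) (hLIN : T_LIN) (hGDM : T_GDM)
    (hBER : T_BER) : T_APC := by
  intro K _ _ n A B hAB S c e c' e' he he'
  classical
  have : Finite (K →+* ℝ) := finite_real
  have : Fintype (K →+* ℝ) := Fintype.ofFinite _
  obtain ⟨m, hm⟩ := hBER K n A B hAB
  obtain ⟨e1, he1, hS1⟩ := exMin S e he
  obtain ⟨e2, he2, hS2⟩ := exMin Finset.univ e' he'
  set e0 := min e1 e2 with he0
  have he00 : 0 < e0 := lt_min he1 he2
  have hwap := fun i : Fin n => hWAP K S (fun v => c v i) (fun φ => c' φ i) (e0 / 2) (by linarith)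
  choose c1 hc1 hc2 using hwap
  have hfin := hLIN K n A B m (lf c1) 0 (by simpa using hm)
  -- the constant
  let t : Fin n → K := fun i => m i.succ + m 0 * c1 i
  set C : ℝ := ∑ v ∈ S, (‖ic v (m 0)‖ + ∑ i, ‖ic v (t i)‖) +
    ∑ φ : K →+* ℝ, (‖φ (m 0)‖ + ∑ i, ‖φ (t i)‖) with hC
  have hp1 : ∀ v : FPl K, 0 ≤ ‖ic v (m 0)‖ + ∑ i, ‖ic v (t i)‖ := fun v =>
    add_nonneg (norm_nonneg _) (Finset.sum_nonneg fun i _ => norm_nonneg _)
  have hp2 : ∀ φ : K →+* ℝ, 0 ≤ ‖φ (m 0)‖ + ∑ i, ‖φ (t i)‖ := fun φ =>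
    add_nonneg (norm_nonneg _) (Finset.sum_nonneg fun i _ => norm_nonneg _)
  have hq1 : 0 ≤ ∑ v ∈ S, (‖ic v (m 0)‖ + ∑ i, ‖ic v (t i)‖) := Finset.sum_nonneg fun v _ => hp1 v
  have hq2 : 0 ≤ ∑ φ : K →+* ℝ, (‖φ (m 0)‖ + ∑ i, ‖φ (t i)‖) := Finset.sum_nonneg fun v _ => hp2 v
  have hC0 : 0 ≤ C := add_nonneg hq1 hq2
  have hCv : ∀ v ∈ S, ‖ic v (m 0)‖ + ∑ i, ‖ic v (t i)‖ ≤ C := by
    intro v hv
    have := Finset.single_le_sum (f := fun v : FPl K => ‖ic v (m 0)‖ + ∑ i, ‖ic v (t i)‖)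
      (fun v _ => hp1 v) hv
    have h2 : (‖ic v (m 0)‖ + ∑ i, ‖ic v (t i)‖) ≤ _ := this
    linarith
  have hCφ : ∀ φ : K →+* ℝ, ‖φ (m 0)‖ + ∑ i, ‖φ (t i)‖ ≤ C := by
    intro φ
    have := Finset.single_le_sum (f := fun φ : K →+* ℝ => ‖φ (m 0)‖ + ∑ i, ‖φ (t i)‖)
      (fun φ _ => hp2 φ) (Finset.mem_univ φ)
    have h2 : (‖φ (m 0)‖ + ∑ i, ‖φ (t i)‖) ≤ _ := this
    linarith
  set δ : ℝ := min (1 / 2) (e0 / 4) / (C + 1) with hδ
  have hC1 : 0 < C + 1 := by linarith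
  have hδ0 : 0 < δ := div_pos (lt_min (by norm_num) (by linarith)) hC1
  have hδC : δ * (C + 1) = min (1 / 2) (e0 / 4) := div_mul_cancel₀ _ hC1.ne'
  obtain ⟨s, hsT, hsv, hsφ⟩ := small S δ hδ0
    ({s : K | ¬ Gd A B (m + s⁻¹ • lf c1)} ∪ {0} ∪ {(m 0)⁻¹}) (by
      refine ((Set.Finite.preimage ?_ hfin).union (Set.finite_singleton _)).union
        (Set.finite_singleton _)
      exact inv_injective.injOn)
  simp only [Set.mem_union, Set.mem_setOf_eq, Set.mem_singleton_iff, not_or, not_not] at hsT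
  obtain ⟨⟨hg, hs0⟩, hsm⟩ := hsT
  have hμ : 1 - s * m 0 ≠ 0 := by
    intro h
    apply hsm
    exact eq_inv_of_mul_eq_one_left (by linear_combination -h)
  have h1 : (δ * (C + 1)) ≤ 1 / 2 := by rw [hδC]; exact min_le_left _ _
  have h2 : 4 * (δ * (C + 1)) ≤ e0 := by
    rw [hδC]
    have := min_le_right (1 / 2 : ℝ) (e0 / 4)
    linarith
  refine ⟨fun i => (c1 i + s * m i.succ) / (1 - s * m 0), ?_, ?_, ?_⟩
  · have hv : (1 - s * m 0) • lf (fun i => (c1 i + s * m i.succ) / (1 - s * m 0)) =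
        s • (m + s⁻¹ • lf c1) := by
      funext i
      refine Fin.cases ?_ (fun i => ?_) i
      · simp only [lf, Pi.smul_apply, Pi.add_apply, cons_val_zero, smul_eq_mul]
        field_simp
        ring
      · simp only [lf, Pi.smul_apply, Pi.add_apply, cons_val_succ, smul_eq_mul]
        field_simp
        ring
    have hG := (hGDM K K (RingHom.id K) n A B
      (lf (fun i => (c1 i + s * m i.succ) / (1 - s * m 0)))).2.2 _ hμ
    rw [← hG, hv, (hGDM K K (RingHom.id K) n A B (m + s⁻¹ • lf c1)).2.2 s hs0]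
    exact hg
  · intro v hv i
    have hi : ‖ic v (t i)‖ ≤ ∑ i, ‖ic v (t i)‖ :=
      Finset.single_le_sum (f := fun i => ‖ic v (t i)‖) (fun i _ => norm_nonneg _)
        (Finset.mem_univ i)
    have hn := norm_nonneg (ic v (m 0))
    have hCC := hCv v hv
    have hsum : 0 ≤ ∑ i, ‖ic v (t i)‖ := Finset.sum_nonneg fun i _ => norm_nonneg _
    have h3 := est (ic v) s (m 0) (m i.succ) (c1 i) C δ e0 hC0 (by linarith)
      (by show ‖ic v (t i)‖ ≤ C; linarith) (hsv v hv) h1 h2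
    have h4 := hc1 i v hv
    have h5 := hS1 v hv
    have h6 := min_le_left e1 e2
    calc ‖ic v ((c1 i + s * m i.succ) / (1 - s * m 0)) - c v i‖
        = ‖(ic v ((c1 i + s * m i.succ) / (1 - s * m 0)) - ic v (c1 i)) +
          (ic v (c1 i) - c v i)‖ := by rw [sub_add_sub_cancel]
      _ ≤ _ := norm_add_le _ _
      _ < e0 / 2 + e0 / 2 := add_lt_add h3 h4
      _ = e0 := by ring
      _ ≤ e v := by linarith
  · intro φ i
    have hi : ‖φ (t i)‖ ≤ ∑ i, ‖φ (t i)‖ :=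
      Finset.single_le_sum (f := fun i => ‖φ (t i)‖) (fun i _ => norm_nonneg _)
        (Finset.mem_univ i)
    have hn := norm_nonneg (φ (m 0))
    have hCC := hCφ φ
    have hsum : 0 ≤ ∑ i, ‖φ (t i)‖ := Finset.sum_nonneg fun i _ => norm_nonneg _
    have h3 := est φ s (m 0) (m i.succ) (c1 i) C δ e0 hC0 (by linarith)
      (by show ‖φ (t i)‖ ≤ C; linarith) (hsφ φ) h1 h2
    have h4 := hc2 i φ
    have h5 := hS2 φ (Finset.mem_univ φ)
    have h6 := min_le_right e1 e2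
    rw [← Real.norm_eq_abs] at h4 ⊢
    calc ‖φ ((c1 i + s * m i.succ) / (1 - s * m 0)) - c' φ i‖
        = ‖(φ ((c1 i + s * m i.succ) / (1 - s * m 0)) - φ (c1 i)) +
          (φ (c1 i) - c' φ i)‖ := by rw [sub_add_sub_cancel]
      _ ≤ _ := norm_add_le _ _
      _ < e0 / 2 + e0 / 2 := add_lt_add h3 h4
      _ = e0 := by ring
      _ ≤ e' φ := by linarith

end Pool.Agent.H98.N6H
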