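import Pool.Agent.H32.N6H.Targets
import Pool.Agent.H55.QCL.APR

set_option autoImplicit false

open Polynomial Matrix NumberField IsDedekindDomain Pool.Agent.H32.QC Pool.Agent.H34.N6 Pool.Agent.H32.N6H
open IsDedekindDomain.HeightOneSpectrum NumberField.HeightOneSpectrum

namespace Pool.Agent.H98.N6H

theorem pf_RSF : T_RSF := by
  intro K _ _ v
  haveI := v.isMaximal
  refine ⟨𝓞 K ⧸ v.asIdeal, Ideal.Quotient.field v.asIdeal, Ideal.Quotient.mk v.asIdeal,
    Ideal.Quotient.mk_surjective, Ideal.mk_ker, ?_, ?_, ?_⟩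
  · intro x
    exact FinitePlace.norm_le_one (K := K) (v := v) x
  · intro x
    rw [Ideal.Quotient.eq_zero_iff_mem]
    exact FinitePlace.norm_lt_one_iff_mem (K := K) (v := v) x
  · intro y hy
    exact (Pool.Agent.H55.QCL.pf_APR K v y 1 one_pos).2 hy

end Pool.Agent.H98.N6H
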